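import Pool.Agent.Helper187.CC.Stmts

set_option autoImplicit false
open Finset

namespace H644CC

open H187CC

variable {q : ℕ}

theorem E_nil (G : List (Fin q) → ℝ) : E G [] = G [] := rfl
theorem E_cons (G : List (Fin q) → ℝ) (f : Fin q → ℝ) (fs : List (Fin q → ℝ)) :
    E G (f :: fs) = ∑ a : Fin q, f a * E (fun w => G (a :: w)) fs := rfl

theorem E_congr (fs : List (Fin q → ℝ)) : ∀ (G G' : List (Fin q) → ℝ),
    (∀ w, w.length = fs.length → G w = G' w) → E G fs = E G' fs := by
  induction fs with
  | nil => intro G G' h; exact h [] rfl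
  | cons f fs ih =>
    intro G G' h
    rw [E_cons, E_cons]
    refine Finset.sum_congr rfl fun a _ => ?_
    rw [ih (fun w => G (a :: w)) (fun w => G' (a :: w)) (fun w hw => h _ (by simp [hw]))]

theorem E_sum (fs : List (Fin q → ℝ)) : ∀ (c : Fin q → ℝ) (G : Fin q → List (Fin q) → ℝ),
    E (fun u => ∑ a : Fin q, c a * G a u) fs = ∑ a : Fin q, c a * E (G a) fs := by
  induction fs with
  | nil => intro c G; rfl
  | cons f fs ih =>
    intro c G
    rw [E_cons]
    have h1 : ∀ b ∈ (univ : Finset (Fin q)), f b * E (fun w => ∑ a : Fin q, c a * G a (b :: w)) fs =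
        ∑ a : Fin q, c a * (f b * E (fun w => G a (b :: w)) fs) := by
      intro b _
      rw [ih c (fun a w => G a (b :: w)), Finset.mul_sum]
      refine Finset.sum_congr rfl fun a _ => ?_
      ring
    rw [Finset.sum_congr rfl h1, Finset.sum_comm]
    refine Finset.sum_congr rfl fun a _ => ?_
    rw [E_cons, Finset.mul_sum]

theorem E_append (fs gs : List (Fin q → ℝ)) : ∀ (G : List (Fin q) → ℝ),
    E G (fs ++ gs) = E (fun u => E (fun w => G (u ++ w)) gs) fs := by
  induction fs with
  | nil => intro G; rfl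
  | cons f fs ih =>
    intro G
    rw [List.cons_append, E_cons, E_cons]
    refine Finset.sum_congr rfl fun a _ => ?_
    rw [ih]
    rfl

theorem E_ones (r : ℕ) : ∀ (G : List (Fin q) → ℝ), E G (List.replicate r 1) = sumr q r G := by
  induction r with
  | zero => intro G; rfl
  | succ r ih =>
    intro G
    rw [List.replicate_succ, E_cons]
    show _ = ∑ c : Fin q, sumr q r (fun l => G (c :: l))
    refine Finset.sum_congr rfl fun a _ => ?_
    rw [ih, Pi.one_apply, one_mul]

/-- rotation by one step -/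
theorem E_rot1 {r n : ℕ} {P Q : List (Fin q) → ℝ} (hQ : CycLaw q r n P Q) (f : Fin q → ℝ)
    (fs : List (Fin q → ℝ)) (h : fs.length + 1 = n) : E Q (fs ++ [f]) = E Q (f :: fs) := by
  rw [E_append, E_cons, ← E_sum]
  apply E_congr
  intro w hw
  rw [E_cons]
  refine Finset.sum_congr rfl fun a _ => ?_
  rw [E_nil, hQ.2.2.1 a w (by omega)]

theorem E_rotate {r n : ℕ} {P Q : List (Fin q) → ℝ} (hQ : CycLaw q r n P Q) (s : ℕ) :
    ∀ (fs : List (Fin q → ℝ)), fs.length = n → E Q (fs.rotate s) = E Q fs := by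
  induction s with
  | zero => intro fs _; rw [List.rotate_zero]
  | succ s ih =>
    intro fs h
    cases fs with
    | nil => simp
    | cons f fs =>
      rw [List.rotate_cons_succ, ih _ (by simpa using h), E_rot1 hQ f fs (by simpa using h)]

theorem E_tail {r n : ℕ} {P Q : List (Fin q) → ℝ} (hQ : CycLaw q r n P Q)
    (fs : List (Fin q → ℝ)) (h : fs.length + r = n) : E Q (fs ++ List.replicate r 1) = E P fs := by
  rw [E_append]
  apply E_congr
  intro w hw
  rw [E_ones, hQ.2.2.2.2 w (by omega)]

theorem E_P_ones {r : ℕ} {P : List (Fin q) → ℝ} (hP : PathLaw q r P) (m : ℕ) :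
    E P (List.replicate m 1) = 1 := by
  induction m with
  | zero => exact hP.1
  | succ m ih =>
    rw [List.replicate_succ, E_cons, ← E_sum, ← ih]
    apply E_congr
    intro w _
    simp only [Pi.one_apply, one_mul]
    exact hP.2.2.1 w

theorem sum_eq_E (n : ℕ) : ∀ (G : List (Fin q) → ℝ) (f : Fin n → (Fin q → ℝ)),
    ∑ x : Fin n → Fin q, G (List.ofFn x) * ∏ i, f i (x i) = E G (List.ofFn f) := by
  induction n with
  | zero =>
    intro G f
    simp [E_nil]
  | succ n ih =>
    intro G f
    rw [List.ofFn_succ, E_cons]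
    rw [← (Fin.consEquiv (fun _ : Fin (n + 1) => Fin q)).sum_comp, Fintype.sum_prod_type]
    refine Finset.sum_congr rfl fun a _ => ?_
    rw [← ih, Finset.mul_sum]
    refine Finset.sum_congr rfl fun x _ => ?_
    rw [Fin.prod_univ_succ]
    simp only [Fin.consEquiv_apply, List.ofFn_succ, Fin.cons_zero, Fin.cons_succ]
    ring

/-- walks in the cycle -/
def vx (n : ℕ) (hn : 0 < n) (a : ℕ) : Fin n := ⟨a % n, Nat.mod_lt _ hn⟩

theorem adj_vx (n : ℕ) (hn : 3 ≤ n) (a : ℕ) :
    (SimpleGraph.cycleGraph n).Adj (vx n (by omega) a) (vx n (by omega) (a + 1)) := by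
  rw [SimpleGraph.cycleGraph_adj']
  right
  rw [Fin.sub_def]
  show (n - a % n + (a + 1) % n) % n = 1
  have h1 : a % n < n := Nat.mod_lt _ (by omega)
  have h2 : (a + 1) % n = (a % n + 1) % n := by rw [Nat.add_mod, Nat.mod_eq_of_lt (by omega : 1 < n)]
  rw [h2]
  rcases Nat.lt_or_ge (a % n + 1) n with h | h
  · rw [Nat.mod_eq_of_lt h]
    have : n - a % n + (a % n + 1) = 1 + n := by omega
    rw [this, Nat.add_mod_right, Nat.mod_eq_of_lt (by omega)]
  · have h3 : a % n + 1 = n := by omega
    rw [h3, Nat.mod_self]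
    have : n - a % n + 0 = 1 := by omega
    rw [this, Nat.mod_eq_of_lt (by omega)]

theorem walk_vx (n : ℕ) (hn : 3 ≤ n) (a t : ℕ) :
    ∃ p : (SimpleGraph.cycleGraph n).Walk (vx n (by omega) a) (vx n (by omega) (a + t)),
      p.length = t := by
  induction t with
  | zero => exact ⟨SimpleGraph.Walk.nil, rfl⟩
  | succ t ih =>
    obtain ⟨p, hp⟩ := ih
    exact ⟨p.concat (adj_vx n hn (a + t)), by rw [SimpleGraph.Walk.length_concat, hp]⟩

theorem dist_vx (n : ℕ) (hn : 3 ≤ n) (a b : ℕ) (h : a ≤ b) :
    (SimpleGraph.cycleGraph n).dist (vx n (by omega) a) (vx n (by omega) b) ≤ b - a := by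
  obtain ⟨p, hp⟩ := walk_vx n hn a (b - a)
  have h1 := SimpleGraph.dist_le p
  rw [hp] at h1
  have h2 : a + (b - a) = b := by omega
  rw [h2] at h1
  exact h1

/-- `r` consecutive vertices where both families are trivial -/
theorem exists_gap (n k r : ℕ) (hn : 3 ≤ n) (hrk : r ≤ k) (p p' : Fin n → Prop) (hp : ∃ i, p i)
    (hp' : ∃ i, p' i) (hd : ∀ i j, p i → p' j → k < (SimpleGraph.cycleGraph n).dist i j) :
    ∃ m, ∀ t < r, ¬ p (vx n (by omega) (m + t)) ∧ ¬ p' (vx n (by omega) (m + t)) := by
  classical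
  obtain ⟨i0, hi0⟩ := hp
  obtain ⟨j0, hj0⟩ := hp'
  have hn0 : 0 < n := by omega
  have hvi : ∀ i : Fin n, vx n hn0 i.val = i := fun i => Fin.ext (Nat.mod_eq_of_lt i.isLt)
  -- first `s` with `p'`
  have hex : ∃ s, p' (vx n hn0 (i0.val + s)) := by
    refine ⟨n - i0.val + j0.val, ?_⟩
    have : vx n hn0 (i0.val + (n - i0.val + j0.val)) = j0 := by
      apply Fin.ext
      show (i0.val + (n - i0.val + j0.val)) % n = j0.val
      have h1 : i0.val + (n - i0.val + j0.val) = j0.val + n := by have := i0.isLt; omega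
      rw [h1, Nat.add_mod_right, Nat.mod_eq_of_lt j0.isLt]
    rw [this]; exact hj0
  set s := Nat.find hex with hs
  have hs1 : p' (vx n hn0 (i0.val + s)) := Nat.find_spec hex
  have hs2 : ∀ u < s, ¬ p' (vx n hn0 (i0.val + u)) := fun u hu => Nat.find_min hex hu
  -- last `s'` with `p`
  have hp0 : p (vx n hn0 (i0.val + 0)) := by rw [Nat.add_zero, hvi]; exact hi0
  set S := (Finset.range (s + 1)).filter (fun u => p (vx n hn0 (i0.val + u))) with hS
  have hSne : S.Nonempty := ⟨0, by rw [hS, Finset.mem_filter]; exact ⟨by simp, hp0⟩⟩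
  set s' := S.max' hSne with hs'
  have hs'S : s' ∈ S := S.max'_mem hSne
  rw [hS, Finset.mem_filter, Finset.mem_range] at hs'S
  have hmax : ∀ u, s' < u → u ≤ s → ¬ p (vx n hn0 (i0.val + u)) := by
    intro u hu hus hpu
    have : u ∈ S := by rw [hS, Finset.mem_filter, Finset.mem_range]; exact ⟨by omega, hpu⟩
    have := S.le_max' u this
    omega
  have hlt := hd _ _ hs'S.2 hs1
  have hle := dist_vx n hn (i0.val + s') (i0.val + s) (by omega)
  refine ⟨i0.val + s' + 1, fun t ht => ?_⟩
  have e : i0.val + s' + 1 + t = i0.val + (s' + 1 + t) := by ring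
  rw [e]
  exact ⟨hmax _ (by omega) (by omega), hs2 _ (by omega)⟩

theorem getElem_rot (n : ℕ) (hn : 0 < n) (f : Fin n → (Fin q → ℝ)) (s i : ℕ)
    (h : i < ((List.ofFn f).rotate s).length) :
    ((List.ofFn f).rotate s)[i] = f (vx n hn (i + s)) := by
  rw [List.getElem_rotate, List.getElem_ofFn]
  congr 1
  apply Fin.ext
  show (i + s) % (List.ofFn f).length = (i + s) % n
  rw [List.length_ofFn]

theorem tail_ones (n r m : ℕ) (hn : 0 < n) (hr : r ≤ n) (f : Fin n → (Fin q → ℝ))
    (hf : ∀ t < r, f (vx n hn (m + t)) = 1) :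
    (List.ofFn f).rotate (m + r) =
      ((List.ofFn f).rotate (m + r)).take (n - r) ++ List.replicate r 1 := by
  have hlen : ((List.ofFn f).rotate (m + r)).length = n := by
    rw [List.length_rotate, List.length_ofFn]
  conv_lhs => rw [← List.take_append_drop (n - r) ((List.ofFn f).rotate (m + r))]
  congr 1
  apply List.ext_getElem
  · rw [List.length_drop, hlen, List.length_replicate]; omega
  · intro t h1 h2
    rw [List.getElem_drop, List.getElem_replicate, getElem_rot n hn]
    rw [List.length_replicate] at h2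
    rw [← hf t h2]
    congr 1
    apply Fin.ext
    show (n - r + t + (m + r)) % n = (m + t) % n
    have : n - r + t + (m + r) = m + t + n := by omega
    rw [this, Nat.add_mod_right]

theorem E_reduce {r n : ℕ} {P Q : List (Fin q) → ℝ} (hQ : CycLaw q r n P Q) (m : ℕ) (hn : 0 < n)
    (hr : r ≤ n) (f : Fin n → (Fin q → ℝ)) (hf : ∀ t < r, f (vx n hn (m + t)) = 1) :
    E Q (List.ofFn f) = E P (((List.ofFn f).rotate (m + r)).take (n - r)) := by
  rw [← E_rotate hQ (m + r) (List.ofFn f) (List.length_ofFn), tail_ones n r m hn hr f hf, E_tail hQ]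
  · congr 1
    rw [List.take_append_of_le_length, List.take_take, min_self]
    rw [List.length_take, List.length_rotate, List.length_ofFn]
    omega
  · rw [List.length_take, List.length_rotate, List.length_ofFn]
    omega

theorem cycInd (hPI : TaskPathInd) (q r k n : ℕ) (P Q : List (Fin q) → ℝ) (hr : 1 ≤ r) (hrn : r ≤ n)
    (hrk : r ≤ k) (hn : 3 ≤ n) (hP : PathLaw q r P) (hQ : CycLaw q r n P Q) :
    ∑ x : Fin n → Fin q, Q (List.ofFn x) = 1 ∧
    ∀ f g : Fin n → (Fin q → ℝ), (∃ i, f i ≠ 1) → (∃ j, g j ≠ 1) →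
    (∀ i j, f i ≠ 1 → g j ≠ 1 → k < (SimpleGraph.cycleGraph n).dist i j) →
    ∑ x : Fin n → Fin q, Q (List.ofFn x) * ∏ i, (f i (x i) * g i (x i))
      = (∑ x : Fin n → Fin q, Q (List.ofFn x) * ∏ i, f i (x i))
        * (∑ x : Fin n → Fin q, Q (List.ofFn x) * ∏ i, g i (x i)) := by
  have hn0 : 0 < n := by omega
  constructor
  · have h1 := sum_eq_E n Q (fun _ => (1 : Fin q → ℝ))
    simp only [Pi.one_apply, Finset.prod_const_one, mul_one] at h1
    rw [h1, List.ofFn_const]
    have h2 : List.replicate n (1 : Fin q → ℝ) = List.replicate (n - r) 1 ++ List.replicate r 1 := by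
      rw [← List.replicate_add]
      congr 1
      omega
    rw [h2, E_tail hQ _ (by rw [List.length_replicate]; omega), E_P_ones hP]
  · intro f g hf hg hd
    obtain ⟨m, hm⟩ := exists_gap n k r hn hrk (fun i => f i ≠ 1) (fun j => g j ≠ 1) hf hg hd
    have hm1 : ∀ t < r, f (vx n hn0 (m + t)) = 1 := fun t ht => by
      have := (hm t ht).1
      simpa using this
    have hm2 : ∀ t < r, g (vx n hn0 (m + t)) = 1 := fun t ht => by
      have := (hm t ht).2
      simpa using this
    have e0 := sum_eq_E n Q (fun i => f i * g i)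
    simp only [Pi.mul_apply] at e0
    rw [e0, sum_eq_E n Q f, sum_eq_E n Q g]
    rw [E_reduce hQ m hn0 hrn f hm1, E_reduce hQ m hn0 hrn g hm2,
      E_reduce hQ m hn0 hrn (fun i => f i * g i) (fun t ht => by
        show f _ * g _ = 1
        rw [hm1 t ht, hm2 t ht, one_mul])]
    have hz : ((List.ofFn fun i => f i * g i).rotate (m + r)).take (n - r) =
        List.zipWith (fun f g => f * g) (((List.ofFn f).rotate (m + r)).take (n - r))
          (((List.ofFn g).rotate (m + r)).take (n - r)) := by
      apply List.ext_getElem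
      · simp
      · intro i h1 h2
        rw [List.getElem_zipWith, List.getElem_take, List.getElem_take, List.getElem_take,
          getElem_rot n hn0, getElem_rot n hn0, getElem_rot n hn0]
    rw [hz]
    apply hPI q r P hr hP
    · simp
    · intro i j hi hj hfi hgj
      rw [List.getElem_take, getElem_rot n hn0] at hfi hgj
      have h1 := hd _ _ hfi hgj
      rcases le_total i j with h | h
      · left
        have h2 := dist_vx n hn (i + (m + r)) (j + (m + r)) (by omega)
        omega
      · right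
        rw [SimpleGraph.dist_comm] at h1
        have h2 := dist_vx n hn (j + (m + r)) (i + (m + r)) (by omega)
        omega

end H644CC
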